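import Mathlib
import Pool.Agent.Work.MP_ce2d68_st.Interface

set_option autoImplicit false

open Polynomial Filter Topology

namespace Pool.Agent.Work.MP_ce2d68_st.helper6

theorem stmt_MAXP : Stmt_MAXP := by
  intro K T f p hK hT hdeg hpos hout hin z hz
  -- on the closure of the complement of `K` the norm of `p` is `T`
  have hcl : ∀ w ∈ closure (Kᶜ), T w = ‖p.eval w‖ := by
    intro w hw
    have hclosed : IsClosed {w : ℂ | T w = ‖p.eval w‖} :=
      isClosed_eq hT (p.continuous.norm)
    exact closure_minimal (fun w hw => hout w hw) hclosed hw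
  -- a large circle
  have hlit : ∀ᶠ w in Bornology.cobounded ℂ, ‖f.eval w‖ ≤ 1 / 2 * ‖p.eval w‖ :=
    (Polynomial.isLittleO_cobounded_of_degree_lt hdeg).def (by norm_num)
  obtain ⟨R1, hR1⟩ : ∃ R1 : ℝ, ∀ w : ℂ, R1 < ‖w‖ → ‖f.eval w‖ ≤ 1 / 2 * ‖p.eval w‖ := by
    rw [← comap_norm_atTop, eventually_comap] at hlit
    obtain ⟨R1, h⟩ := eventually_atTop.1 hlit
    exact ⟨R1, fun w hw => h ‖w‖ hw.le w rfl⟩
  obtain ⟨R2, hR2⟩ := hK.isBounded.subset_ball (0 : ℂ)
  set R : ℝ := max (max R1 R2) ‖z‖ + 1 with hR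
  have hRR1 : R1 < R := by
    have := le_max_left R1 R2
    have := le_max_left (max R1 R2) ‖z‖
    linarith
  have hRR2 : R2 < R := by
    have := le_max_right R1 R2
    have := le_max_left (max R1 R2) ‖z‖
    linarith
  have hRz : ‖z‖ < R := by
    have := le_max_right (max R1 R2) ‖z‖
    linarith
  have hR0 : R ≠ 0 := by
    have := norm_nonneg z
    linarith
  set U : Set ℂ := Metric.ball (0 : ℂ) R ∩ Kᶜ with hU
  have hUo : IsOpen U := Metric.isOpen_ball.inter hK.isClosed.isOpen_compl
  have hUb : Bornology.IsBounded U := Metric.isBounded_ball.subset Set.inter_subset_left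
  have hUK : closure U ⊆ closure (Kᶜ) := closure_mono Set.inter_subset_right
  have hp0 : ∀ w ∈ closure U, p.eval w ≠ 0 := by
    intro w hw h0
    have h1 := hcl w (hUK hw)
    rw [h0, norm_zero] at h1
    exact (hpos w).ne' h1
  have hd : DiffContOnCl ℂ (fun w => f.eval w / p.eval w) U := by
    refine ⟨?_, ?_⟩
    · intro w hw
      exact (f.differentiable.differentiableAt.div p.differentiable.differentiableAt
        (hp0 w (subset_closure hw))).differentiableWithinAt
    · exact f.continuous.continuousOn.div p.continuous.continuousOn hp0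
  have hfr : ∀ w ∈ frontier U, ‖f.eval w / p.eval w‖ ≤ 1 / 2 := by
    intro w hw
    have hwc : w ∈ closure U := frontier_subset_closure hw
    have hpw := hp0 w hwc
    have hppos : 0 < ‖p.eval w‖ := norm_pos_iff.2 hpw
    rw [norm_div, div_le_iff₀ hppos]
    have hnU : w ∉ U := by
      rw [hUo.frontier_eq] at hw
      exact hw.2
    by_cases hwK : w ∈ K
    · rw [← hcl w (hUK hwc)]
      exact hin w hwK
    · have hnb : w ∉ Metric.ball (0 : ℂ) R := fun h => hnU ⟨h, hwK⟩
      rw [Metric.mem_ball, dist_zero_right, not_lt] at hnb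
      exact hR1 w (hRR1.trans_le hnb)
  have hzU : z ∈ closure U := by
    refine subset_closure ⟨?_, hz⟩
    rw [Metric.mem_ball, dist_zero_right]
    exact hRz
  have hmain := Complex.norm_le_of_forall_mem_frontier_norm_le hUb hd hfr hzU
  have hppos : 0 < ‖p.eval z‖ := norm_pos_iff.2 (hp0 z hzU)
  rwa [norm_div, div_le_iff₀ hppos] at hmain

end Pool.Agent.Work.MP_ce2d68_st.helper6
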